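import Mathlib

namespace Pool.Agent.Results.MP_b466f1_co.Counter

/-- An oriented graph: loopless, at most one of the edges uv, vu. -/
def Oriented {V : Type} (E : V → V → Prop) : Prop :=
  (∀ u, ¬ E u u) ∧ ∀ u v, E u v → ¬ E v u

/-- The minimum semi-degree equals the floor of (n-1)/2. -/
def SemiRegular {V : Type} [Fintype V] (E : V → V → Prop) : Prop :=
  IsLeast {d : ℕ | ∃ v, d = {w | E v w}.ncard ∨ d = {w | E w v}.ncard} ((Fintype.card V - 1) / 2)

/-- G contains a (not necessarily induced) copy of H. -/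
def Sub {V W : Type} (H : V → V → Prop) (G : W → W → Prop) : Prop :=
  ∃ f : V → W, Function.Injective f ∧ ∀ u v, H u v → G (f u) (f v)

def Turanable {V : Type} (H : V → V → Prop) : Prop :=
  ∃ n₀ : ℕ, ∀ (W : Type) [Fintype W] (G : W → W → Prop),
    Oriented G → SemiRegular G → n₀ ≤ Fintype.card W → Sub H G

/-- The l-th power of the consistently oriented cycle on k vertices. -/
def Cyc (k l : ℕ) (u v : ZMod k) : Prop := ∃ j : ℕ, 1 ≤ j ∧ j ≤ l ∧ v = u + j

/-- The tournament F_r: at the first differing coordinate, 0 → 1 → 2 → 0. -/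
def F (r : ℕ) (u v : Fin r → Fin 3) : Prop :=
  ∃ i : Fin r, (∀ j, j < i → u j = v j) ∧ v i = u i + 1

/-! ### The host tournaments -/

def R (N x y : ℕ) : Prop := (x + y + 1 ≤ N ∧ N ≤ 2 * x + y + 1) ∨ 2 * N ≤ 2 * x + y + 1

instance (N x y : ℕ) : Decidable (R N x y) := by unfold R; infer_instance

def G (N : ℕ) (u v : Fin 3 × Fin N) : Prop :=
  (u.1 = v.1 ∧ u.2 < v.2) ∨ (v.1 = u.1 + 1 ∧ R N u.2 v.2) ∨ (u.1 = v.1 + 1 ∧ ¬ R N v.2 u.2)

instance (N : ℕ) (u v : Fin 3 × Fin N) : Decidable (G N u v) := by unfold G; infer_instance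

theorem G_or (N : ℕ) : Oriented (G N) := by
  refine ⟨?_, ?_⟩
  · rintro ⟨i, x⟩ h
    simp only [G] at h
    rcases h with h | h | h
    · exact lt_irrefl _ h.2
    · revert i; intro i h; have := h.1; revert this; fin_cases i <;> decide
    · have := h.1; revert this; fin_cases i <;> decide
  · rintro ⟨i, x⟩ ⟨j, y⟩ h h'
    simp only [G] at h h'
    have h3 : ∀ a : Fin 3, a ≠ a + 1 := by decide
    have h4 : ∀ a b : Fin 3, a = b + 1 → b = a + 1 → False := by decide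
    rcases h with h | h | h <;> rcases h' with h' | h' | h'
    · exact lt_asymm h.2 h'.2
    · exact h3 j (h.1.symm.trans h'.1)
    · exact h3 i (h.1.trans h'.1)
    · exact h3 i (h'.1.symm.trans h.1)
    · exact h4 _ _ h.1 h'.1
    · exact h'.2 h.2
    · exact h3 j (h'.1.trans h.1)
    · exact h.2 h'.2
    · exact h4 _ _ h.1 h'.1

theorem cnt (N : ℕ) (p : ℕ → Prop) [DecidablePred p] :
    (∑ y : Fin N, if p y then 1 else 0) = ((Finset.range N).filter p).card := by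
  rw [Finset.card_filter, Fin.sum_univ_eq_sum_range (fun y => if p y then 1 else 0) N]

theorem c1 (N x : ℕ) (hx : x < N) : ((Finset.range N).filter (fun y => x < y)).card = N - 1 - x := by
  have : (Finset.range N).filter (fun y => x < y) = Finset.Ico (x + 1) N := by
    ext y; simp only [Finset.mem_filter, Finset.mem_range, Finset.mem_Ico]; omega
  rw [this, Nat.card_Ico]; omega

theorem c1' (N x : ℕ) (hx : x < N) : ((Finset.range N).filter (fun y => y < x)).card = x := by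
  have : (Finset.range N).filter (fun y => y < x) = Finset.range x := by
    ext y; simp only [Finset.mem_filter, Finset.mem_range]; omega
  rw [this, Finset.card_range]

theorem c2 (N x : ℕ) (hx : x < N) :
    ((Finset.range N).filter (fun y => R N x y)).card = x + 1 := by
  have : (Finset.range N).filter (fun y => R N x y) =
      Finset.Ico (N - 1 - 2 * x) (N - x) ∪ Finset.Ico (2 * N - 1 - 2 * x) N := by
    ext y; simp only [Finset.mem_filter, Finset.mem_range, Finset.mem_Ico, Finset.mem_union, R]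
    omega
  rw [this, Finset.card_union_of_disjoint, Nat.card_Ico, Nat.card_Ico]
  · omega
  · rw [Finset.disjoint_left]; intro y; simp only [Finset.mem_Ico]; omega

theorem c3 (N y : ℕ) (hy : y < N) :
    ((Finset.range N).filter (fun x => R N x y)).card =
      (N - y - (N - y) / 2) + (N - (2 * N - y) / 2) := by
  have : (Finset.range N).filter (fun x => R N x y) =
      Finset.Ico ((N - y) / 2) (N - y) ∪ Finset.Ico ((2 * N - y) / 2) N := by
    ext x; simp only [Finset.mem_filter, Finset.mem_range, Finset.mem_Ico, Finset.mem_union, R]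
    omega
  rw [this, Finset.card_union_of_disjoint, Nat.card_Ico, Nat.card_Ico]
  rw [Finset.disjoint_left]; intro x; simp only [Finset.mem_Ico]; omega

theorem cneg (N : ℕ) (p : ℕ → Prop) [DecidablePred p] :
    ((Finset.range N).filter (fun y => ¬ p y)).card = N - ((Finset.range N).filter p).card := by
  have := Finset.card_filter_add_card_filter_not (s := Finset.range N) p
  rw [Finset.card_range] at this
  omega

theorem ncard_eq {W : Type} [Fintype W] (p : W → Prop) [DecidablePred p] :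
    {w | p w}.ncard = ∑ w, if p w then 1 else 0 := by
  rw [← Finset.card_filter, ← Set.ncard_coe_finset]
  congr 1
  ext w; simp

theorem sum3 (i : Fin 3) (f : Fin 3 → ℕ) : ∑ j, f j = f i + f (i + 1) + f (i + 2) := by
  rw [Fin.sum_univ_three]
  fin_cases i
  · rfl
  · show f 0 + f 1 + f 2 = f 1 + f 2 + f 0; omega
  · show f 0 + f 1 + f 2 = f 2 + f 0 + f 1; omega

theorem G0 (N : ℕ) (i : Fin 3) (x y : Fin N) : G N (i, x) (i, y) ↔ (x : ℕ) < y := by
  have h3 : ∀ a : Fin 3, ¬ a = a + 1 := by decide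
  simp [G, h3]

theorem G1 (N : ℕ) (i : Fin 3) (x y : Fin N) : G N (i, x) (i + 1, y) ↔ R N x y := by
  have h3 : ∀ a : Fin 3, ¬ a = a + 1 := by decide
  have h4 : ∀ a : Fin 3, ¬ a = a + 1 + 1 := by decide
  simp only [G, h3, h4, false_and, false_or, or_false, true_and]

theorem G2 (N : ℕ) (i : Fin 3) (x y : Fin N) : G N (i, x) (i + 2, y) ↔ ¬ R N y x := by
  have h3 : ∀ a : Fin 3, ¬ a = a + 2 := by decide
  have h4 : ∀ a : Fin 3, ¬ a + 2 = a + 1 := by decide
  have h5 : ∀ a : Fin 3, a = a + 2 + 1 := by decide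
  simp only [G, h3, h4, false_and, false_or, ← h5, true_and]

theorem G1' (N : ℕ) (i : Fin 3) (x y : Fin N) : G N (i + 1, y) (i, x) ↔ ¬ R N x y := by
  have h5 : ∀ a : Fin 3, a = a + 1 + 2 := by decide
  have := G2 N (i + 1) y x
  rwa [← h5] at this

theorem G2' (N : ℕ) (i : Fin 3) (x y : Fin N) : G N (i + 2, y) (i, x) ↔ R N y x := by
  have h5 : ∀ a : Fin 3, a = a + 2 + 1 := by decide
  have := G1 N (i + 2) y x
  rwa [← h5] at this

theorem outdeg (M : ℕ) (v : Fin 3 × Fin (2 * M)) :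
    {w | G (2 * M) v w}.ncard + (v.2 : ℕ) % 2 = 3 * M := by
  obtain ⟨i, x⟩ := v
  rw [ncard_eq, Fintype.sum_prod_type, sum3 i]
  simp only [G0, G1, G2]
  rw [cnt (2 * M) (fun y => (x : ℕ) < y), cnt (2 * M) (fun y => R (2 * M) x y),
    cnt (2 * M) (fun y => ¬ R (2 * M) y x), cneg (2 * M) (fun y => R (2 * M) y x),
    c1 _ _ x.2, c2 _ _ x.2, c3 _ _ x.2]
  have := x.2
  omega

theorem indeg (M : ℕ) (v : Fin 3 × Fin (2 * M)) :
    {w | G (2 * M) w v}.ncard + 1 = 3 * M + (v.2 : ℕ) % 2 := by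
  obtain ⟨i, x⟩ := v
  rw [ncard_eq, Fintype.sum_prod_type, sum3 i]
  simp only [G0, G1', G2']
  rw [cnt (2 * M) (fun y => y < (x : ℕ)), cnt (2 * M) (fun y => R (2 * M) y x),
    cnt (2 * M) (fun y => ¬ R (2 * M) x y), cneg (2 * M) (fun y => R (2 * M) x y),
    c1' _ _ x.2, c2 _ _ x.2, c3 _ _ x.2]
  have := x.2
  omega

theorem G_semi (M : ℕ) (hM : 0 < M) : SemiRegular (G (2 * M)) := by
  have hc : Fintype.card (Fin 3 × Fin (2 * M)) = 6 * M := by simp; ring
  refine ⟨⟨(0, ⟨0, by omega⟩), Or.inr ?_⟩, ?_⟩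
  · have := indeg M (0, ⟨0, by omega⟩)
    simp only [Nat.zero_mod] at this
    rw [hc]; omega
  · rintro d ⟨v, h | h⟩
    · have := outdeg M v
      rw [hc]; omega
    · have := indeg M v
      rw [hc]; omega

/-! ### The graph H: 55 cyclic triangles in series -/

def H (u v : Fin 55 × Fin 3) : Prop :=
  (u.1 = v.1 ∧ v.2 = u.2 + 1) ∨ (u.1 < v.1 ∧ ((u.2 ≠ 2 ∧ v.2 ≠ 2) ∨ (u.2 = 2 ∧ v.2 = 2)))

theorem H_or : Oriented H := by
  have h3 : ∀ a : Fin 3, a ≠ a + 1 := by decide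
  have h4 : ∀ a b : Fin 3, a = b + 1 → b = a + 1 → False := by decide
  refine ⟨?_, ?_⟩
  · rintro u (h | h)
    · exact h3 _ h.2
    · exact lt_irrefl _ h.1
  · rintro u v (h | h) (h' | h')
    · exact h4 _ _ h.2 h'.2
    · exact absurd h'.1 (by rw [h.1]; exact lt_irrefl _)
    · exact absurd h.1 (by rw [h'.1]; exact lt_irrefl _)
    · exact lt_asymm h.1 h'.1

def wd (u : Fin 55 × Fin 3) (p : Fin 56) : Fin 3 :=
  if (p : ℕ) = 55 then u.2 else if (p : ℕ) < u.1 then 1 else 0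

theorem H_F : Sub H (F 56) := by
  have key : ∀ u v : Fin 55 × Fin 3, u.1 < v.1 → F 56 (wd u) (wd v) := by
    intro u v h
    have h' : (u.1 : ℕ) < v.1 := h
    have hv := v.1.2
    refine ⟨⟨u.1, by omega⟩, ?_, ?_⟩
    · intro j hj
      have hj' : (j : ℕ) < u.1 := hj
      simp only [wd]
      have e1 : ¬ (j : ℕ) = 55 := by omega
      have e2 : (j : ℕ) < v.1 := by omega
      rw [if_neg e1, if_neg e1, if_pos hj', if_pos e2]
    · simp only [wd]
      rw [if_neg (by omega), if_pos h', if_neg (by omega), if_neg (lt_irrefl _)]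
      rfl
  have ne : ∀ u v : Fin 55 × Fin 3, u.1 < v.1 → wd u ≠ wd v := by
    intro u v h e
    obtain ⟨i, -, hi⟩ := key u v h
    rw [e] at hi
    revert hi; generalize wd v i = a; revert a; decide
  refine ⟨wd, ?_, ?_⟩
  · intro u v e
    rcases lt_trichotomy u.1 v.1 with h | h | h
    · exact absurd e (ne u v h)
    · have := congrFun e 55
      simp only [wd] at this
      exact Prod.ext h this
    · exact absurd e.symm (ne v u h)
  · rintro u v (h | h)
    · refine ⟨55, ?_, ?_⟩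
      · intro j hj
        have hj' : (j : ℕ) < 55 := hj
        simp only [wd]
        rw [if_neg (by omega), if_neg (by omega : ¬ (j : ℕ) = 55), h.1]
      · exact h.2
    · exact key u v h.1

def pos (u : Fin 55 × Fin 3) : ℕ :=
  if u.2 = 0 then 2 * u.1 else if u.2 = 1 then 2 * u.1 + 1 else 2 * u.1 + 111

theorem cyc_of (a b j : ℕ) (h1 : 1 ≤ j) (h2 : j ≤ 110) (h : b = a + j ∨ b + 221 = a + j) :
    Cyc (2 * 110 + 1) 110 (a : ZMod (2 * 110 + 1)) (b : ZMod (2 * 110 + 1)) := by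
  refine ⟨j, h1, h2, ?_⟩
  rw [← Nat.cast_add, ZMod.natCast_eq_natCast_iff']
  omega

theorem H_C : Sub H (Cyc (2 * 110 + 1) 110) := by
  refine ⟨fun u => (pos u : ZMod (2 * 110 + 1)), ?_, ?_⟩
  · rintro ⟨i, s⟩ ⟨j, t⟩ e
    have e' := (ZMod.natCast_eq_natCast_iff' _ _ _).1 e
    have hi := i.2
    have hj := j.2
    have lt : ∀ u, pos u < 2 * 110 + 1 := by
      intro u; have := u.1.2; unfold pos; split_ifs <;> omega
    rw [Nat.mod_eq_of_lt (lt _), Nat.mod_eq_of_lt (lt _)] at e'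
    fin_cases s <;> fin_cases t <;> simp [pos] at e' ⊢ <;> omega
  · rintro ⟨i, s⟩ ⟨j, t⟩ h
    have hi := i.2
    have hj := j.2
    rcases h with ⟨h1, h2⟩ | ⟨h1, h2⟩
    · simp only at h1 h2
      subst h1 h2
      fin_cases s
      · exact cyc_of _ _ 1 (by omega) (by omega) (by simp [pos])
      · exact cyc_of _ _ 110 (by omega) (by omega) (by simp [pos])
      · exact cyc_of _ _ 110 (by omega) (by omega) (by simp [pos])
    · have h1' : (i : ℕ) < j := h1
      refine cyc_of _ _ (pos (j, t) - pos (i, s)) ?_ ?_ ?_ <;>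
      fin_cases s <;> fin_cases t <;> simp [pos] at h2 ⊢ <;> omega

theorem tri (i : Fin 3) (j : Fin 3) : j = i ∨ j = i + 1 ∨ j = i + 2 := by
  revert i j; decide

theorem core (N : ℕ) (α α' β : Fin 3) (a1 a2 a3 c1 c2 c3 b1 b2 b3 : Fin N)
    (t1 : G N (α, a1) (α', c1)) (t2 : G N (α, a2) (α', c2)) (t3 : G N (α, a3) (α', c3))
    (s1 : G N (α', c1) (β, b1)) (s2 : G N (α', c2) (β, b2)) (s3 : G N (α', c3) (β, b3))
    (r1 : G N (β, b1) (α, a1)) (r2 : G N (β, b2) (α, a2)) (r3 : G N (β, b3) (α, a3))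
    (e12 : G N (α, a1) (α, a2)) (e23 : G N (α, a2) (α, a3))
    (f12 : G N (α', c1) (α', c2)) (f23 : G N (α', c2) (α', c3))
    (g12 : G N (β, b1) (β, b2)) (g23 : G N (β, b2) (β, b3))
    (h12 : G N (α', c1) (α, a2)) (h23 : G N (α', c2) (α, a3)) : False := by
  rw [G0] at e12 e23 f12 f23 g12 g23
  rcases tri α α' with h | h | h <;> subst h
  · rw [G0] at t1 t2 t3 h12 h23
    rcases tri α' β with h | h | h <;> subst h
    · rw [G0] at s1 r1; omega
    · rw [G1] at s1 s2 s3; rw [G1'] at r1 r2 r3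
      simp only [R] at s1 s2 s3 r1 r2 r3; omega
    · rw [G2] at s1 s2 s3; rw [G2'] at r1 r2 r3
      simp only [R] at s1 s2 s3 r1 r2 r3; omega
  · rw [G1] at t1 t2 t3; rw [G1'] at h12 h23
    simp only [R] at t1 t2 t3 h12 h23; omega
  · rw [G2] at t1 t2 t3; rw [G2'] at h12 h23
    simp only [R] at t1 t2 t3 h12 h23; omega

theorem not_sub (N : ℕ) : ¬ Sub H (G N) := by
  rintro ⟨f, -, hf⟩
  obtain ⟨c, hc⟩ := Fintype.exists_lt_card_fiber_of_mul_lt_card
    (fun i : Fin 55 => ((f (i, 0)).1, (f (i, 1)).1, (f (i, 2)).1)) (n := 2) (by simp)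
  obtain ⟨i, j, l, hi, hj, hl, hij, hjl⟩ : ∃ i j l : Fin 55,
      ((f (i, 0)).1, (f (i, 1)).1, (f (i, 2)).1) = c ∧
      ((f (j, 0)).1, (f (j, 1)).1, (f (j, 2)).1) = c ∧
      ((f (l, 0)).1, (f (l, 1)).1, (f (l, 2)).1) = c ∧ i < j ∧ j < l := by
    obtain ⟨x, y, z, hx, hy, hz, hxy, hxz, hyz⟩ := Finset.two_lt_card_iff.1 hc
    simp only [Finset.mem_filter, Finset.mem_univ, true_and] at hx hy hz
    rcases lt_or_gt_of_ne hxy with h1 | h1 <;> rcases lt_or_gt_of_ne hxz with h2 | h2 <;>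
      rcases lt_or_gt_of_ne hyz with h3 | h3
    · exact ⟨x, y, z, hx, hy, hz, h1, h3⟩
    · exact ⟨x, z, y, hx, hz, hy, h2, h3⟩
    · exact absurd (h1.trans h3) (lt_asymm h2)
    · exact ⟨z, x, y, hz, hx, hy, h2, h1⟩
    · exact ⟨y, x, z, hy, hx, hz, h1, h2⟩
    · exact absurd (h1.trans h2) (lt_asymm h3)
    · exact ⟨y, z, x, hy, hz, hx, h3, h2⟩
    · exact ⟨z, y, x, hz, hy, hx, h3, h1⟩
  obtain ⟨α, α', β⟩ := c
  simp only [Prod.mk.injEq] at hi hj hl
  have T : ∀ (k : Fin 55) (s : Fin 3), G N (f (k, s)) (f (k, s + 1)) :=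
    fun k s => hf _ _ (Or.inl ⟨rfl, rfl⟩)
  have A : ∀ (k k' : Fin 55) (s t : Fin 3), k < k' → s ≠ 2 → t ≠ 2 →
      G N (f (k, s)) (f (k', t)) :=
    fun k k' s t h hs ht => hf _ _ (Or.inr ⟨h, Or.inl ⟨hs, ht⟩⟩)
  have B : ∀ (k k' : Fin 55), k < k' → G N (f (k, 2)) (f (k', 2)) :=
    fun k k' h => hf _ _ (Or.inr ⟨h, Or.inr ⟨rfl, rfl⟩⟩)
  have P : ∀ (u : Fin 55 × Fin 3) (γ : Fin 3), (f u).1 = γ → f u = (γ, (f u).2) :=
    fun u γ h => Prod.ext h rfl
  have z0 : (0 : Fin 3) ≠ 2 := by decide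
  have z1 : (1 : Fin 3) ≠ 2 := by decide
  refine core N α α' β (f (i, 0)).2 (f (j, 0)).2 (f (l, 0)).2 (f (i, 1)).2 (f (j, 1)).2
    (f (l, 1)).2 (f (i, 2)).2 (f (j, 2)).2 (f (l, 2)).2
    ?_ ?_ ?_ ?_ ?_ ?_ ?_ ?_ ?_ ?_ ?_ ?_ ?_ ?_ ?_ ?_ ?_
  · rw [← P _ _ hi.1, ← P _ _ hi.2.1]; exact T i 0
  · rw [← P _ _ hj.1, ← P _ _ hj.2.1]; exact T j 0
  · rw [← P _ _ hl.1, ← P _ _ hl.2.1]; exact T l 0
  · rw [← P _ _ hi.2.1, ← P _ _ hi.2.2]; exact T i 1
  · rw [← P _ _ hj.2.1, ← P _ _ hj.2.2]; exact T j 1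
  · rw [← P _ _ hl.2.1, ← P _ _ hl.2.2]; exact T l 1
  · rw [← P _ _ hi.1, ← P _ _ hi.2.2]; exact T i 2
  · rw [← P _ _ hj.1, ← P _ _ hj.2.2]; exact T j 2
  · rw [← P _ _ hl.1, ← P _ _ hl.2.2]; exact T l 2
  · rw [← P _ _ hi.1, ← P _ _ hj.1]; exact A i j 0 0 hij z0 z0
  · rw [← P _ _ hl.1, ← P _ _ hj.1]; exact A j l 0 0 hjl z0 z0
  · rw [← P _ _ hi.2.1, ← P _ _ hj.2.1]; exact A i j 1 1 hij z1 z1
  · rw [← P _ _ hl.2.1, ← P _ _ hj.2.1]; exact A j l 1 1 hjl z1 z1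
  · rw [← P _ _ hi.2.2, ← P _ _ hj.2.2]; exact B i j hij
  · rw [← P _ _ hl.2.2, ← P _ _ hj.2.2]; exact B j l hjl
  · rw [← P _ _ hi.2.1, ← P _ _ hj.1]; exact A i j 1 0 hij z1 z0
  · rw [← P _ _ hj.2.1, ← P _ _ hl.1]; exact A j l 1 0 hjl z1 z0

theorem result : ¬ ∀ (V : Type) [Fintype V] (E : V → V → Prop), Oriented E →
    (Turanable E ↔ ∃ r k : ℕ, 1 ≤ r ∧ 1 ≤ k ∧ Sub E (F r) ∧ Sub E (Cyc (2 * k + 1) k)) := by
  intro h
  obtain ⟨n₀, hn⟩ := (h _ H H_or).2 ⟨56, 110, by omega, by omega, H_F, H_C⟩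
  refine not_sub (2 * (n₀ + 1)) (hn _ _ (G_or _) (G_semi _ (by omega)) ?_)
  simp; omega

end Pool.Agent.Results.MP_b466f1_co.Counter
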